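import Pool.Agent.Helper94.GA.Goals
import Mathlib.NumberTheory.Real.GoldenRatio
import Mathlib.NumberTheory.MahlerMeasure

/-!
# MP_d69e80_al, packet GOLD: the golden ratio
-/

namespace Pool.Agent.Helper69.GA

open Polynomial Pool.Agent.Helper94.GA

theorem GOLD : GOLD_stmt := by
  classical
  set φ : ℝ := Real.goldenRatio with hφ
  set ψ : ℝ := Real.goldenConj with hψ
  have hφ1 : 1 < φ := Real.one_lt_goldenRatio
  have hsq : φ ^ 2 = φ + 1 := Real.goldenRatio_sq
  have hsqC : ((φ : ℂ)) ^ 2 = (φ : ℂ) + 1 := by exact_mod_cast hsq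
  have hsum : φ + ψ = 1 := Real.goldenRatio_add_goldenConj
  have hprod : φ * ψ = -1 := Real.goldenRatio_mul_goldenConj
  have hψ1 : |ψ| ≤ 1 := by
    rw [abs_le]
    exact ⟨Real.neg_one_lt_goldenConj.le, by linarith⟩
  -- the polynomial
  set P : ℤ[X] := X ^ 2 - X - 1 with hP
  have hPm : P.Monic := by
    rw [hP]; monicity!
  have hroot : aeval (φ : ℂ) P = 0 := by
    simp only [hP, map_sub, map_pow, aeval_X, map_one]
    rw [hsqC]; ring
  have hint : IsIntegral ℤ (φ : ℂ) := ⟨P, hPm, by simpa [aeval_def] using hroot⟩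
  have hinv : ((φ : ℂ))⁻¹ = -(ψ : ℂ) := by
    have h0 : (φ : ℂ) ≠ 0 := by
      exact_mod_cast (ne_of_gt (lt_trans zero_lt_one hφ1))
    have h1 : (φ : ℂ) * (ψ : ℂ) = -1 := by exact_mod_cast hprod
    field_simp
    rw [h1]; ring
  have hψint : IsIntegral ℤ (ψ : ℂ) := by
    have : (ψ : ℂ) = 1 - (φ : ℂ) := by
      have : (φ : ℂ) + (ψ : ℂ) = 1 := by exact_mod_cast hsum
      linear_combination this
    rw [this]
    exact isIntegral_one.sub hint
  refine ⟨(φ : ℂ), by exact_mod_cast (ne_of_gt (lt_trans zero_lt_one hφ1)), hint, ?_, ?_, ?_⟩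
  · rw [hinv]; exact hψint.neg
  · intro k hk h
    have h1 : φ ^ k = 1 := by exact_mod_cast h
    have h2 : 1 < φ ^ k := one_lt_pow₀ hφ1 hk.ne'
    linarith
  · -- the Mahler measure
    have hdvd : minpoly ℤ (φ : ℂ) ∣ P := minpoly.isIntegrallyClosed_dvd hint hroot
    obtain ⟨Q, hQ⟩ := hdvd
    have hP0 : P ≠ 0 := hPm.ne_zero
    have hQ0 : Q ≠ 0 := by
      rintro rfl
      exact hP0 (by rw [hQ, mul_zero])
    have hQ1 : 1 ≤ (Q.map (Int.castRingHom ℂ)).mahlerMeasure :=
      one_le_mahlerMeasure_of_ne_zero hQ0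
    have hm0 : 0 < mah (φ : ℂ) := by
      unfold mah
      refine mahlerMeasure_pos_of_ne_zero ?_
      rw [Ne, Polynomial.map_eq_zero_iff (RingHom.injective_int (Int.castRingHom ℂ))]
      exact minpoly.ne_zero hint
    have hPM : (P.map (Int.castRingHom ℂ)).mahlerMeasure =
        mah (φ : ℂ) * (Q.map (Int.castRingHom ℂ)).mahlerMeasure := by
      unfold mah
      rw [← mahlerMeasure_mul, ← Polynomial.map_mul, ← hQ]
    have hfac : P.map (Int.castRingHom ℂ) = (X - C (φ : ℂ)) * (X - C (ψ : ℂ)) := by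
      have h1 : (φ : ℂ) * (ψ : ℂ) = -1 := by exact_mod_cast hprod
      have h2 : (φ : ℂ) + (ψ : ℂ) = 1 := by exact_mod_cast hsum
      have : (X - C (φ : ℂ)) * (X - C (ψ : ℂ)) =
          X ^ 2 - C ((φ : ℂ) + (ψ : ℂ)) * X + C ((φ : ℂ) * (ψ : ℂ)) := by
        rw [C_add, C_mul]; ring
      rw [this, h1, h2]
      simp [hP]
      ring
    have hPφ : (P.map (Int.castRingHom ℂ)).mahlerMeasure = φ := by
      rw [hfac, mahlerMeasure_mul, mahlerMeasure_X_sub_C, mahlerMeasure_X_sub_C,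
        Complex.norm_real, Complex.norm_real, Real.norm_eq_abs, Real.norm_eq_abs,
        abs_of_pos (by linarith : (0 : ℝ) < φ), max_eq_right hφ1.le, max_eq_left hψ1, mul_one]
    have hle : mah (φ : ℂ) ≤ φ := by
      rw [hPφ] at hPM
      nlinarith
    calc Real.log (mah (φ : ℂ)) ≤ Real.log φ := Real.log_le_log hm0 hle
      _ ≤ 1 / 2 := by
        rw [Real.log_le_iff_le_exp (by linarith)]
        have hexp : φ ^ 2 ≤ (Real.exp (1 / 2)) ^ 2 := by
          rw [← Real.exp_nat_mul]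
          have h3 : ((2 : ℕ) : ℝ) * (1 / 2) = 1 := by norm_num
          rw [h3, hsq]
          have h4 : φ < 1.65 := by
            have : Real.sqrt 5 < 2.3 := by
              rw [Real.sqrt_lt' (by norm_num)]; norm_num
            rw [hφ, Real.goldenRatio]
            linarith
          have h5 := Real.exp_one_gt_d9
          linarith
        exact le_of_sq_le_sq hexp (Real.exp_pos _).le
where
  le_of_sq_le_sq {a b : ℝ} (h : a ^ 2 ≤ b ^ 2) (hb : 0 ≤ b) : a ≤ b := by
    exact le_of_not_gt fun hlt => by nlinarith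

end Pool.Agent.Helper69.GA
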